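import Pool.Agent.Helper3.AA.Spec

set_option autoImplicit false

open Real Set

namespace Pool.Agent.Helper65.AA.SUB

open Pool.Agent.Helper3.AA

lemma two {x θ₁ θ₂ : ℝ} (hx0 : 0 ≤ x) (hx1 : x ≤ 1) (h1 : 0 ≤ θ₁) (h2 : 0 ≤ θ₂)
    (h : θ₁ + θ₂ ≤ π / 2) :
    arcsin (sin (θ₁ + θ₂) * x) ≤ arcsin (sin θ₁ * x) + arcsin (sin θ₂ * x) := by
  have hpi := pi_pos
  have key : ∀ θ : ℝ, 0 ≤ θ → θ ≤ π / 2 → 0 ≤ sin θ ∧ sin (arcsin (sin θ * x)) = sin θ * x ∧
      0 ≤ arcsin (sin θ * x) ∧ arcsin (sin θ * x) ≤ θ ∧ cos θ ≤ cos (arcsin (sin θ * x)) := by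
    intro θ h0 hθ
    have s0 : 0 ≤ sin θ := sin_nonneg_of_nonneg_of_le_pi h0 (by linarith)
    have s1 : sin θ ≤ 1 := sin_le_one θ
    have p0 : 0 ≤ sin θ * x := mul_nonneg s0 hx0
    have p1 : sin θ * x ≤ sin θ := by nlinarith
    have a0 : 0 ≤ arcsin (sin θ * x) := arcsin_nonneg.2 p0
    have a1 : arcsin (sin θ * x) ≤ θ := by
      calc arcsin (sin θ * x) ≤ arcsin (sin θ) := monotone_arcsin p1
        _ = θ := arcsin_sin (by linarith) hθ
    exact ⟨s0, sin_arcsin (by linarith) (by linarith), a0, a1,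
      cos_le_cos_of_nonneg_of_le_pi a0 (by linarith) a1⟩
  obtain ⟨a1, a2, a3, a4, a5⟩ := key θ₁ h1 (by linarith)
  obtain ⟨b1, b2, b3, b4, b5⟩ := key θ₂ h2 (by linarith)
  set A := arcsin (sin θ₁ * x)
  set B := arcsin (sin θ₂ * x)
  have e : arcsin (sin (A + B)) = A + B := arcsin_sin (by linarith) (by linarith)
  rw [← e]
  apply monotone_arcsin
  rw [sin_add, sin_add, a2, b2]
  have c1 : 0 ≤ sin θ₁ * x * (cos B - cos θ₂) :=
    mul_nonneg (mul_nonneg a1 hx0) (by linarith)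
  have c2 : 0 ≤ sin θ₂ * x * (cos A - cos θ₁) :=
    mul_nonneg (mul_nonneg b1 hx0) (by linarith)
  nlinarith

lemma two' {x θ₁ θ₂ : ℝ} (hx0 : 0 ≤ x) (hx1 : x ≤ 1) (h1 : 0 ≤ θ₁) (h1' : θ₁ ≤ π / 2)
    (h2 : 0 ≤ θ₂) (h2' : θ₂ ≤ π / 2) :
    arcsin (sin (min (θ₁ + θ₂) (π / 2)) * x) ≤ arcsin (sin θ₁ * x) + arcsin (sin θ₂ * x) := by
  rcases le_total (θ₁ + θ₂) (π / 2) with h | h
  · rw [min_eq_left h]; exact two hx0 hx1 h1 h2 h
  · rw [min_eq_right h]
    have h3 := two hx0 hx1 h1 (show 0 ≤ π / 2 - θ₁ by linarith) (by linarith)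
    rw [show θ₁ + (π / 2 - θ₁) = π / 2 by ring] at h3
    have h4 : arcsin (sin (π / 2 - θ₁) * x) ≤ arcsin (sin θ₂ * x) := by
      apply monotone_arcsin
      apply mul_le_mul_of_nonneg_right _ hx0
      have := pi_pos
      exact sin_le_sin_of_le_of_le_pi_div_two (by linarith) h2' (by linarith)
    linarith

lemma sum_nonneg' (L : List ℝ) (hL : ∀ s ∈ L, 0 ≤ s ∧ s ≤ 1) : 0 ≤ (L.map arcsin).sum := by
  apply List.sum_nonneg
  intro y hy
  rw [List.mem_map] at hy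
  obtain ⟨s, hs, rfl⟩ := hy
  exact arcsin_nonneg.2 (hL s hs).1

lemma many (x : ℝ) (hx0 : 0 ≤ x) (hx1 : x ≤ 1) (L : List ℝ) (hL : ∀ s ∈ L, 0 ≤ s ∧ s ≤ 1) :
    arcsin (sin (min (L.map arcsin).sum (π / 2)) * x) ≤ (L.map fun s => arcsin (s * x)).sum := by
  have hpi := pi_pos
  induction L with
  | nil =>
    simp only [List.map_nil, List.sum_nil]
    rw [min_eq_left (by linarith), sin_zero, zero_mul, arcsin_zero]
  | cons s L ih =>
    have hs := hL s (by simp)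
    have hL' : ∀ s ∈ L, 0 ≤ s ∧ s ≤ 1 := fun y hy => hL y (by simp [hy])
    have ih := ih hL'
    have h0 := sum_nonneg' L hL'
    have a0 : 0 ≤ arcsin s := arcsin_nonneg.2 hs.1
    have a1 : arcsin s ≤ π / 2 := arcsin_le_pi_div_two s
    simp only [List.map_cons, List.sum_cons]
    have h1 := two' hx0 hx1 a0 a1 (le_min h0 (by linarith)) (min_le_right (L.map arcsin).sum (π / 2))
    have e : min (arcsin s + min (L.map arcsin).sum (π / 2)) (π / 2) =
        min (arcsin s + (L.map arcsin).sum) (π / 2) := by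
      rcases le_total (L.map arcsin).sum (π / 2) with h | h
      · rw [min_eq_left h]
      · rw [min_eq_right h, min_eq_right (by linarith), min_eq_right (by linarith)]
    rw [e, sin_arcsin (by linarith [hs.1]) hs.2] at h1
    linarith

theorem main : S_SUB := by
  intro L x hL hx0 hx1
  have h := many x hx0 hx1 L hL
  have e : max 0 (π / 2 - (L.map arcsin).sum) = π / 2 - min (L.map arcsin).sum (π / 2) := by
    rcases le_total (L.map arcsin).sum (π / 2) with h | h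
    · rw [min_eq_left h, max_eq_right (by linarith)]
    · rw [min_eq_right h, max_eq_left (by linarith), sub_self]
  rw [e, cos_pi_div_two_sub]
  exact h

end Pool.Agent.Helper65.AA.SUB
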